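import Mathlib

set_option autoImplicit false

/-!
# The average element orders of the finite groups are dense in `[12, ∞)`

For every `m` there is a finite group `Q m` of exponent `8` in which the proportion of the elements of
order `8` is positive, but at most `2 ^ (-m - 1)`: the semidirect product of an extraspecial group
`(x, y, z)`, `x, y : F₂ ^ L`, `z : F₂`, `L = F₂ ^ m`, with `L` (which acts by translations) and with an
involution which exchanges `x` and `y`. For `n = 4 P`, `P` odd, the average order of the elements of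
`(Q m) ^ j × (ℤ / n) ^ M` converges to `n (2 - (1 - θ) ^ j)` for `M → ∞`, `θ` being that proportion.
-/

namespace Pool.Agent.Results.MP_d1f1b8_al.DenseAverageOrders

open Finset

/-- The average order `o(G)` of the elements of the finite group `G`. -/
noncomputable def avgOrder (G : Type) [Group G] [Fintype G] : ℝ :=
  (∑ g : G, (orderOf g : ℝ)) / Fintype.card G

/-! ### The groups `Q m` -/

/-- the index group -/
abbrev L (m : ℕ) : Type := Fin m → ZMod 2

/-- functions on the index group -/
abbrev F (m : ℕ) : Type := L m → ZMod 2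

/-- translation -/
def sh {m : ℕ} (l : L m) (x : F m) : F m := fun a => x (a + l)

/-- scalar product -/
def dot {m : ℕ} (x y : F m) : ZMod 2 := ∑ a, x a * y a

lemma sh_add {m : ℕ} (l : L m) (x y : F m) : sh l (x + y) = sh l x + sh l y := rfl

lemma sh_zero {m : ℕ} (l : L m) : sh l (0 : F m) = 0 := rfl

lemma sh_sh {m : ℕ} (l k : L m) (x : F m) : sh l (sh k x) = sh (l + k) x := by
  funext a
  simp only [sh, add_assoc]

lemma zero_sh {m : ℕ} (x : F m) : sh (0 : L m) x = x := by
  funext a
  simp [sh]

lemma add_self_L {m : ℕ} (l : L m) : l + l = 0 := by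
  funext i
  exact CharTwo.add_self_eq_zero (l i)

lemma add_self_F {m : ℕ} (l : F m) : l + l = 0 := by
  funext i
  exact CharTwo.add_self_eq_zero (l i)

lemma dot_comm {m : ℕ} (x y : F m) : dot x y = dot y x := by
  simp only [dot, mul_comm]

lemma dot_add {m : ℕ} (x y w : F m) : dot x (y + w) = dot x y + dot x w := by
  simp only [dot, Pi.add_apply, mul_add, sum_add_distrib]

lemma add_dot {m : ℕ} (x y w : F m) : dot (x + y) w = dot x w + dot y w := by
  simp only [dot, Pi.add_apply, add_mul, sum_add_distrib]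

lemma dot_zero {m : ℕ} (x : F m) : dot x 0 = 0 := by simp [dot]

lemma zero_dot {m : ℕ} (x : F m) : dot 0 x = 0 := by simp [dot]

lemma dot_sh_sh {m : ℕ} (l : L m) (x y : F m) : dot (sh l x) (sh l y) = dot x y := by
  unfold dot sh
  exact Fintype.sum_equiv (Equiv.addRight l) _ _ (fun a => rfl)

lemma dot_sh {m : ℕ} (l : L m) (x y : F m) : dot (sh l x) y = dot x (sh l y) := by
  have h := dot_sh_sh l x (sh l y)
  rw [sh_sh, add_self_L, zero_sh] at h
  exact h

/-- for `l ≠ 0` the terms of `x · l x` cancel in pairs -/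
lemma dot_sh_self {m : ℕ} {l : L m} (hl : l ≠ 0) (x : F m) : dot x (sh l x) = 0 := by
  unfold dot sh
  refine Finset.sum_involution (fun a _ => a + l) ?_ ?_ (fun a _ => mem_univ _) ?_
  · intro a _
    have h : a + l + l = a := by rw [add_assoc, add_self_L, add_zero]
    rw [h, mul_comm (x (a + l)) (x a)]
    exact CharTwo.add_self_eq_zero _
  · intro a _ _ h
    exact hl (by simpa using h)
  · intro a _
    show a + l + l = a
    rw [add_assoc, add_self_L, add_zero]

lemma dot_self_eq {m : ℕ} (x : F m) : dot x x = ∑ a, x a := by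
  unfold dot
  refine sum_congr rfl fun a _ => ?_
  generalize x a = t
  revert t
  decide

/-- The group `Q m` (as a set): the elements `(x, y, z)` of the extraspecial group, the elements `l`
of the index group, and `j = 0, 1` for the involution which exchanges `x` and `y`. -/
@[ext] structure Q (m : ℕ) : Type where
  /-- first component -/
  x : F m
  /-- second component -/
  y : F m
  /-- central component -/
  z : ZMod 2
  /-- translation -/
  l : L m
  /-- exchange of the two components -/
  j : Bool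

namespace Q

variable {m : ℕ}

/-- multiplication -/
instance : Mul (Q m) := ⟨fun g h =>
  { x := g.x + sh g.l (bif g.j then h.y else h.x)
    y := g.y + sh g.l (bif g.j then h.x else h.y)
    z := g.z + (h.z + (bif g.j then dot h.x h.y else 0)) +
      dot g.x (sh g.l (bif g.j then h.x else h.y))
    l := g.l + h.l
    j := xor g.j h.j }⟩

instance : One (Q m) := ⟨⟨0, 0, 0, 0, false⟩⟩

/-- inverse -/
instance : Inv (Q m) := ⟨fun g =>
  { x := sh g.l (bif g.j then g.y else g.x)
    y := sh g.l (bif g.j then g.x else g.y)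
    z := g.z + (bif g.j then 0 else dot g.x g.y)
    l := g.l
    j := g.j }⟩

lemma mul_x (g h : Q m) : (g * h).x = g.x + sh g.l (bif g.j then h.y else h.x) := rfl
lemma mul_y (g h : Q m) : (g * h).y = g.y + sh g.l (bif g.j then h.x else h.y) := rfl
lemma mul_z (g h : Q m) : (g * h).z = g.z + (h.z + (bif g.j then dot h.x h.y else 0)) +
      dot g.x (sh g.l (bif g.j then h.x else h.y)) := rfl
lemma mul_l (g h : Q m) : (g * h).l = g.l + h.l := rfl
lemma mul_j (g h : Q m) : (g * h).j = xor g.j h.j := rfl
lemma one_x : (1 : Q m).x = 0 := rfl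
lemma one_y : (1 : Q m).y = 0 := rfl
lemma one_z : (1 : Q m).z = 0 := rfl
lemma one_l : (1 : Q m).l = 0 := rfl
lemma one_j : (1 : Q m).j = false := rfl

lemma two_eq : (2 : ZMod 2) = 0 := rfl

lemma mul_assoc' (g h k : Q m) : g * h * k = g * (h * k) := by
  obtain ⟨gx, gy, gz, gl, gj⟩ := g
  obtain ⟨hx, hy, hz, hl, hj⟩ := h
  obtain ⟨kx, ky, kz, kl, kj⟩ := k
  ext1
  · simp only [mul_x, mul_y, mul_l, mul_j]
    cases gj <;> cases hj <;> simp [sh_add, sh_sh, add_assoc]
  · simp only [mul_x, mul_y, mul_l, mul_j]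
    cases gj <;> cases hj <;> simp [sh_add, sh_sh, add_assoc]
  · simp only [mul_x, mul_y, mul_z, mul_l, mul_j]
    cases gj <;> cases hj
    · simp only [cond_false, Bool.xor_false, sh_add, dot_add, add_dot, ← sh_sh, dot_sh_sh]
      ring
    · simp only [cond_false, cond_true, Bool.false_xor, sh_add, dot_add, add_dot, ← sh_sh, dot_sh_sh]
      ring
    · simp only [cond_false, cond_true, Bool.xor_false, sh_add, dot_add, add_dot, ← sh_sh, dot_sh_sh]
      rw [dot_comm hy (sh hl kx), dot_sh]
      linear_combination (-(dot hx (sh hl ky))) * two_eq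
    · simp only [cond_false, cond_true, Bool.xor_true, Bool.not_true, sh_add, dot_add, add_dot, ← sh_sh, dot_sh_sh]
      rw [dot_comm hy (sh hl ky), dot_sh, dot_comm ky kx]
      linear_combination (-(dot hx (sh hl kx)) - dot kx ky) * two_eq
  · simp only [mul_l, add_assoc]
  · simp only [mul_j, Bool.xor_assoc]

lemma one_mul' (g : Q m) : 1 * g = g := by
  ext1
  · simp only [mul_x, one_x, one_l, one_j, cond_false, zero_sh, zero_add]
  · simp only [mul_y, one_y, one_l, one_j, cond_false, zero_sh, zero_add]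
  · simp only [mul_z, one_x, one_z, one_j, cond_false, zero_dot, zero_add, add_zero]
  · simp only [mul_l, one_l, zero_add]
  · simp only [mul_j, one_j, Bool.false_xor]

lemma inv_mul' (g : Q m) : g⁻¹ * g = 1 := by
  obtain ⟨gx, gy, gz, gl, gj⟩ := g
  ext1
  · show sh gl (bif gj then gy else gx) + sh gl (bif gj then gy else gx) = 0
    exact add_self_F _
  · show sh gl (bif gj then gx else gy) + sh gl (bif gj then gx else gy) = 0
    exact add_self_F _
  · show gz + (bif gj then 0 else dot gx gy) + (gz + (bif gj then dot gx gy else 0)) +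
      dot (sh gl (bif gj then gy else gx)) (sh gl (bif gj then gx else gy)) = 0
    rw [dot_sh_sh]
    cases gj
    · simp only [cond_false]
      linear_combination (gz + dot gx gy) * two_eq
    · simp only [cond_true]
      rw [dot_comm gy gx]
      linear_combination (gz + dot gx gy) * two_eq
  · exact add_self_L gl
  · show xor gj gj = false
    simp

instance : Group (Q m) := Group.ofLeftAxioms mul_assoc' one_mul' inv_mul'

/-- `Q m` as a set -/
def eqv (m : ℕ) : Q m ≃ (F m × F m × ZMod 2 × Bool) × L m where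
  toFun g := ((g.x, g.y, g.z, g.j), g.l)
  invFun p := ⟨p.1.1, p.1.2.1, p.1.2.2.1, p.2, p.1.2.2.2⟩
  left_inv _ := rfl
  right_inv _ := rfl

instance : Fintype (Q m) := Fintype.ofEquiv _ (eqv m).symm

/-- squares -/
lemma sq_eq (g : Q m) : g * g = ⟨g.x + sh g.l (bif g.j then g.y else g.x),
    g.y + sh g.l (bif g.j then g.x else g.y),
    (bif g.j then dot g.x g.y + dot g.x (sh g.l g.x) else dot g.x (sh g.l g.y)), 0, false⟩ := by
  obtain ⟨gx, gy, gz, gl, gj⟩ := g
  ext1
  · rfl
  · rfl
  · show gz + (gz + (bif gj then dot gx gy else 0)) + dot gx (sh gl (bif gj then gx else gy)) = _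
    cases gj
    · simp only [cond_false]
      linear_combination gz * two_eq
    · simp only [cond_true]
      linear_combination gz * two_eq
  · exact add_self_L gl
  · show xor gj gj = false
    simp

/-- fourth powers -/
lemma pow_four (g : Q m) : g ^ 4 = ⟨0, 0,
    (bif g.j then dot g.x (sh g.l g.x) + dot g.y (sh g.l g.y) else 0), 0, false⟩ := by
  have h4 : g ^ 4 = (g * g) * (g * g) := by
    rw [← pow_two, ← pow_two, ← pow_mul]
  rw [h4, sq_eq (g * g), sq_eq g]
  obtain ⟨gx, gy, gz, gl, gj⟩ := g
  simp only [cond_false, zero_sh, add_self_F]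
  congr 1
  cases gj
  · simp only [cond_false, dot_add, add_dot, dot_sh_sh]
    rw [dot_sh]
    linear_combination (dot gx gy + dot gx (sh gl gy)) * two_eq
  · simp only [cond_true, dot_add, add_dot, dot_sh_sh]
    rw [dot_comm (sh gl gy) gy, dot_comm gy gx]
    linear_combination (dot gx gy) * two_eq

lemma pow_eight (g : Q m) : g ^ 8 = 1 := by
  have h : g ^ 8 = (g ^ 4) * (g ^ 4) := by rw [← pow_add]
  rw [h, sq_eq, pow_four]
  simp only [cond_false, zero_sh, dot_zero, add_zero]
  rfl

lemma l_eq_zero {g : Q m} (h : g ^ 4 ≠ 1) : g.l = 0 := by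
  by_contra hl
  apply h
  rw [pow_four, dot_sh_self hl, dot_sh_self hl]
  simp only [add_zero, Bool.cond_self]
  rfl

lemma exists_pow_four (m : ℕ) : ∃ g : Q m, g ^ 4 ≠ 1 := by
  refine ⟨⟨Pi.single 0 1, 0, 0, 0, true⟩, fun h => ?_⟩
  have h2 := congrArg Q.z h
  rw [pow_four] at h2
  simp only [cond_true, zero_sh, dot_self_eq] at h2
  rw [Finset.sum_pi_single'] at h2
  simp at h2
  exact one_ne_zero h2

end Q

/-! ### Proportions -/

open Classical in
/-- the proportion of the elements `g` with `g ^ 4 = 1` -/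
noncomputable def prop4 (A : Type) [Group A] [Fintype A] : ℝ :=
  ((univ.filter fun g : A => g ^ 4 = 1).card : ℝ) / Fintype.card A

lemma prop4_lt (m : ℕ) : prop4 (Q m) < 1 := by
  classical
  obtain ⟨g, hg⟩ := Q.exists_pow_four m
  unfold prop4
  rw [div_lt_one (by exact_mod_cast Fintype.card_pos), ← card_univ]
  have : (univ.filter fun g : Q m => g ^ 4 = 1).card < (univ : Finset (Q m)).card := by
    apply card_lt_card
    rw [Finset.ssubset_iff_of_subset (filter_subset _ _)]
    exact ⟨g, mem_univ _, by simp [hg]⟩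
  exact_mod_cast this

lemma le_prop4 (m : ℕ) : 1 - (1 / 2) ^ m ≤ prop4 (Q m) := by
  classical
  have h1 : (univ.filter fun g : Q m => ¬ g ^ 4 = 1).card ≤
      Fintype.card (F m × F m × ZMod 2 × Bool) := by
    rw [← card_univ]
    apply card_le_card_of_injOn (fun g => (Q.eqv m g).1) (fun _ _ => mem_coe.2 (mem_univ _))
    intro g hg k hk h
    have hg' : g.l = 0 := Q.l_eq_zero (by simpa using hg)
    have hk' : k.l = 0 := Q.l_eq_zero (by simpa using hk)
    apply (Q.eqv m).injective
    exact Prod.ext h (hg'.trans hk'.symm)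
  have h2 : Fintype.card (Q m) = Fintype.card (F m × F m × ZMod 2 × Bool) * 2 ^ m := by
    rw [Fintype.card_congr (Q.eqv m), Fintype.card_prod]
    congr 1
    simp [L]
  have h3 : (0 : ℝ) < Fintype.card (F m × F m × ZMod 2 × Bool) := by
    exact_mod_cast Fintype.card_pos
  have h5 : (univ.filter fun g : Q m => g ^ 4 = 1).card +
      (univ.filter fun g : Q m => ¬ g ^ 4 = 1).card = Fintype.card (Q m) := by
    rw [card_filter_add_card_filter_not, card_univ]
  have h6 : ((univ.filter fun g : Q m => g ^ 4 = 1).card : ℝ) +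
      (univ.filter fun g : Q m => ¬ g ^ 4 = 1).card = Fintype.card (Q m) := by
    exact_mod_cast h5
  have h1' : ((univ.filter fun g : Q m => ¬ g ^ 4 = 1).card : ℝ) ≤
      Fintype.card (F m × F m × ZMod 2 × Bool) := by exact_mod_cast h1
  have h2' : (Fintype.card (Q m) : ℝ) = Fintype.card (F m × F m × ZMod 2 × Bool) * 2 ^ m := by
    exact_mod_cast h2
  unfold prop4
  rw [le_div_iff₀ (by rw [h2']; positivity)]
  have h4 : (1 / 2 : ℝ) ^ m * ((Fintype.card (F m × F m × ZMod 2 × Bool) : ℝ) * 2 ^ m) =
      Fintype.card (F m × F m × ZMod 2 × Bool) := by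
    rw [mul_comm, mul_assoc, ← mul_pow]
    norm_num
  rw [sub_mul, one_mul, h2', h4, ← h2']
  linarith

lemma prop4_pi (A : Type) [Group A] [Fintype A] (j : ℕ) :
    prop4 (Fin j → A) = prop4 A ^ j := by
  classical
  unfold prop4
  have key : ∀ inst : DecidablePred fun g : Fin j → A => g ^ 4 = 1,
      (@Finset.filter _ _ inst univ).card = (univ.filter fun g : A => g ^ 4 = 1).card ^ j := by
    intro inst
    have h : (univ.filter fun g : Fin j → A => g ^ 4 = 1) =
        Fintype.piFinset (fun _ : Fin j => univ.filter fun g : A => g ^ 4 = 1) := by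
      ext g
      simp only [mem_filter, mem_univ, true_and, Fintype.mem_piFinset, funext_iff]
      rfl
    rw [h, Fintype.card_piFinset]
    simp
  rw [key, div_pow]
  simp

/-! ### The average order of the elements of `A × (ℤ / n) ^ M` -/

section avg

variable {M n : ℕ} [NeZero n]

omit [NeZero n] in
lemma pow_n (c : Multiplicative (Fin M → ZMod n)) : c ^ n = 1 := by
  have h : n • (Multiplicative.toAdd c) = 0 := by
    funext i
    simp
  exact h

omit [NeZero n] in
lemma order_of_one {c : Multiplicative (Fin M → ZMod n)} {i : Fin M}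
    (h : Multiplicative.toAdd c i = 1) : orderOf c = n := by
  apply Nat.dvd_antisymm (orderOf_dvd_of_pow_eq_one (pow_n c))
  have h1 : (orderOf c) • (Multiplicative.toAdd c) = 0 := pow_orderOf_eq_one c
  have h2 := congrFun h1 i
  rw [Pi.smul_apply, h, nsmul_eq_mul, mul_one, Pi.zero_apply] at h2
  exact (ZMod.natCast_eq_zero_iff _ _).1 h2

open Classical in
lemma card_bad : (univ.filter fun c : Multiplicative (Fin M → ZMod n) => orderOf c ≠ n).card ≤
    (n - 1) ^ M := by
  have h : (univ.filter fun c : Multiplicative (Fin M → ZMod n) => orderOf c ≠ n).card ≤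
      (Fintype.piFinset (fun _ : Fin M => (univ.erase (1 : ZMod n)))).card := by
    apply card_le_card_of_injOn (fun c => Multiplicative.toAdd c)
    · intro c hc
      rw [mem_coe, mem_filter] at hc
      rw [mem_coe, Fintype.mem_piFinset]
      intro i
      rw [mem_erase]
      exact ⟨fun h => hc.2 (order_of_one h), mem_univ _⟩
    · intro a _ b _ h
      exact h
  refine h.trans (le_of_eq ?_)
  rw [Fintype.card_piFinset]
  simp [ZMod.card]

lemma avg_estimate {A : Type} [Group A] [Fintype A] (h8 : ∀ g : A, g ^ 8 = 1) {P : ℕ}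
    (hP : Odd P) (hn : n = 4 * P) :
    |avgOrder (A × Multiplicative (Fin M → ZMod n)) - n * (2 - prop4 A)| ≤
      2 * n * (((n : ℝ) - 1) / n) ^ M := by
  classical
  set B := Multiplicative (Fin M → ZMod n) with hB
  have hn0 : 0 < n := Nat.pos_of_ne_zero (NeZero.ne n)
  have hnR : (0 : ℝ) < n := by exact_mod_cast hn0
  set t : A → ℝ := fun g => if g ^ 4 = 1 then (n : ℝ) else 2 * n with ht
  have ht0 : ∀ g, 0 ≤ t g := fun g => by
    simp only [ht]; split_ifs <;> positivity
  have ht1 : ∀ g, t g ≤ 2 * n := fun g => by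
    simp only [ht]; split_ifs <;> linarith
  -- orders
  have hgood : ∀ (g : A) (c : B), orderOf c = n → (orderOf (g, c) : ℝ) = t g := by
    intro g c hc
    rw [Prod.orderOf]
    simp only [hc, ht]
    split_ifs with h4
    · have h1 : orderOf g ∣ 4 := orderOf_dvd_of_pow_eq_one h4
      have h2 : orderOf g ∣ n := h1.trans ⟨P, hn⟩
      rw [Nat.lcm_eq_right h2]
    · have h1 : orderOf g = 2 ^ 3 := orderOf_eq_prime_pow (by norm_num; exact h4) (by norm_num; exact h8 g)
      have h2 : Nat.lcm (2 ^ 3) n = 2 * n := by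
        rw [hn, show 2 ^ 3 = 4 * 2 by norm_num, Nat.lcm_mul_left,
          Nat.Coprime.lcm_eq_mul (Nat.coprime_two_left.2 hP)]
        ring
      rw [h1, h2]
      push_cast
      ring
  have hle : ∀ (g : A) (c : B), (orderOf (g, c) : ℝ) ≤ 2 * n := by
    intro g c
    have h1 : (g, c) ^ (2 * n) = 1 := by
      have e1 : g ^ (2 * n) = 1 := by
        rw [hn, show 2 * (4 * P) = 8 * P by ring, pow_mul, h8, one_pow]
      have e2 : c ^ (2 * n) = 1 := by
        rw [mul_comm, pow_mul, pow_n, one_pow]
      rw [Prod.pow_mk, e1, e2]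
      rfl
    have h2 := orderOf_le_of_pow_eq_one (by omega) h1
    exact_mod_cast h2
  have hdiff : ∀ (g : A) (c : B), |(orderOf (g, c) : ℝ) - t g| ≤
      if orderOf c ≠ n then (2 * n : ℝ) else 0 := by
    intro g c
    split_ifs with h
    · rw [abs_le]
      have h1 := hle g c
      have h2 : (0 : ℝ) ≤ orderOf (g, c) := Nat.cast_nonneg _
      have h3 := ht0 g
      have h4 := ht1 g
      constructor <;> linarith
    · rw [hgood g c (not_not.1 h), sub_self, abs_zero]
  have hcA : (0 : ℝ) < Fintype.card A := by exact_mod_cast Fintype.card_pos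
  have hcB : (Fintype.card B : ℝ) = (n : ℝ) ^ M := by
    have : Fintype.card (Multiplicative (Fin M → ZMod n)) = n ^ M := by
      simp [ZMod.card]
    rw [this]
    push_cast
    rfl
  have hcB0 : (0 : ℝ) < Fintype.card B := by rw [hcB]; positivity
  -- sums
  have hsum : |∑ p : A × B, (orderOf p : ℝ) - ∑ p : A × B, t p.1| ≤
      Fintype.card A * ((((n : ℝ) - 1) ^ M) * (2 * n)) := by
    rw [← sum_sub_distrib]
    refine (abs_sum_le_sum_abs _ _).trans ?_
    refine (sum_le_sum fun p _ => hdiff p.1 p.2).trans ?_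
    have e1 : ∑ c : B, (if orderOf c ≠ n then (2 * n : ℝ) else 0) =
        ((univ.filter fun c : B => orderOf c ≠ n).card : ℝ) * (2 * n) := by
      rw [← sum_filter, sum_const, nsmul_eq_mul]
    have e2 : ∑ p : A × B, (if orderOf p.2 ≠ n then (2 * n : ℝ) else 0) =
        Fintype.card A * ∑ c : B, (if orderOf c ≠ n then (2 * n : ℝ) else 0) := by
      rw [Fintype.sum_prod_type]
      have e3 : ∀ X : ℝ, ∑ _a : A, X = Fintype.card A * X := fun X => by
        rw [sum_const, card_univ, nsmul_eq_mul]
      exact e3 (∑ c : B, (if orderOf c ≠ n then (2 * n : ℝ) else 0))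
    refine e2.le.trans ?_
    rw [e1]
    refine mul_le_mul_of_nonneg_left ?_ hcA.le
    refine mul_le_mul_of_nonneg_right ?_ (by positivity)
    have h1 : (((univ.filter fun c : B => orderOf c ≠ n).card : ℕ) : ℝ) ≤ (((n - 1) ^ M : ℕ) : ℝ) := by
      exact_mod_cast card_bad
    refine h1.trans (le_of_eq ?_)
    rw [Nat.cast_pow, Nat.cast_sub hn0, Nat.cast_one]
  have hsumt : ∑ p : A × B, t p.1 = Fintype.card A * Fintype.card B * (n * (2 - prop4 A)) := by
    rw [Fintype.sum_prod_type]
    simp only [sum_const, card_univ, nsmul_eq_mul]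
    rw [← mul_sum]
    have h1 : ∑ g, t g = n * (2 * Fintype.card A - (univ.filter fun g : A => g ^ 4 = 1).card) := by
      have h2 : ∀ g, t g = 2 * n - if g ^ 4 = 1 then (n : ℝ) else 0 := by
        intro g
        simp only [ht]
        split_ifs <;> ring
      rw [sum_congr rfl fun g _ => h2 g, sum_sub_distrib, ← sum_filter, sum_const, sum_const, card_univ,
        nsmul_eq_mul, nsmul_eq_mul]
      ring
    rw [h1]
    unfold prop4
    field_simp
  have havg : avgOrder (A × B) - n * (2 - prop4 A) =
      (∑ p : A × B, (orderOf p : ℝ) - ∑ p : A × B, t p.1) / (Fintype.card A * Fintype.card B) := by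
    rw [hsumt]
    unfold avgOrder
    rw [Fintype.card_prod]
    push_cast
    field_simp
  rw [havg, abs_div, abs_of_pos (mul_pos hcA hcB0), div_le_iff₀ (mul_pos hcA hcB0)]
  refine hsum.trans (le_of_eq ?_)
  rw [hcB, div_pow]
  have : (n : ℝ) ^ M ≠ 0 := by positivity
  field_simp

end avg

/-- **Answer to Q1 (the assertion is false).** The average element orders of the finite groups are
dense in `[12, ∞)`: every nonempty open interval `(u, v)` with `12 ≤ u` contains `o(G)` for some
finite group `G`. -/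
theorem result : ∃ a : ℝ, 0 ≤ a ∧ ∀ u v : ℝ, a ≤ u → u < v →
    ∃ (G : Type) (_ : Group G) (_ : Fintype G), u < avgOrder G ∧ avgOrder G < v := by
  refine ⟨12, by norm_num, fun u v hu huv => ?_⟩
  -- the target
  obtain ⟨t, ht1, ht2⟩ := exists_between huv
  have ht12 : 12 < t := lt_of_le_of_lt hu ht1
  -- the odd number
  set k : ℕ := ⌊(t / 8 + 1) / 2⌋₊ with hk
  have hk1 : (k : ℝ) ≤ (t / 8 + 1) / 2 := Nat.floor_le (by positivity)
  have hk2 : (t / 8 + 1) / 2 < k + 1 := Nat.lt_floor_add_one _
  set P : ℕ := 2 * k + 1 with hPdef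
  have hPodd : Odd P := ⟨k, rfl⟩
  have hPR : (P : ℝ) = 2 * k + 1 := by rw [hPdef]; push_cast; ring
  have hP1 : t / 8 < P := by rw [hPR]; linarith
  have hP2 : (P : ℝ) < t / 4 := by
    rcases le_or_gt t 16 with h | h
    · have h1 : (k : ℝ) < 2 := by linarith
      have h2 : k < 2 := by exact_mod_cast h1
      have h3 : (k : ℝ) ≤ 1 := by exact_mod_cast Nat.lt_succ_iff.1 h2
      rw [hPR]
      linarith
    · rw [hPR]
      linarith
  set n : ℕ := 4 * P with hndef
  have hn0 : n ≠ 0 := by omega
  have : NeZero n := ⟨hn0⟩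
  have hnR : (n : ℝ) = 4 * P := by rw [hndef]; push_cast; ring
  have hnpos : (0 : ℝ) < n := by
    have := Nat.pos_of_ne_zero hn0
    exact_mod_cast this
  -- the proportion
  set q : ℝ := 2 - t / n with hq
  have hq0 : 0 < q := by
    rw [hq, sub_pos, div_lt_iff₀ hnpos, hnR]
    linarith
  have hq1 : q < 1 := by
    have : 1 < t / n := by
      rw [lt_div_iff₀ hnpos, hnR]
      linarith
    rw [hq]; linarith
  set δ : ℝ := min (t - u) (v - t) / 2 with hδ
  have hδ0 : 0 < δ := by
    rw [hδ]
    have := lt_min (sub_pos.2 ht1) (sub_pos.2 ht2)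
    linarith
  have hδ1 : 2 * δ ≤ t - u := by
    have := min_le_left (t - u) (v - t)
    rw [hδ]; linarith
  have hδ2 : 2 * δ ≤ v - t := by
    have := min_le_right (t - u) (v - t)
    rw [hδ]; linarith
  obtain ⟨m, hm⟩ := exists_pow_lt_of_lt_one (show (0 : ℝ) < min (δ / n) 1 by
    exact lt_min (div_pos hδ0 hnpos) one_pos) (show (1 / 2 : ℝ) < 1 by norm_num)
  have hm1 : (1 / 2 : ℝ) ^ m < δ / n := lt_of_lt_of_le hm (min_le_left _ _)
  have hm2 : (1 / 2 : ℝ) ^ m < 1 := lt_of_lt_of_le hm (min_le_right _ _)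
  have hp1 := prop4_lt m
  have hp2 := le_prop4 m
  have hp0 : 0 < prop4 (Q m) := by linarith
  obtain ⟨j, hj1, hj2⟩ := exists_nat_pow_near_of_lt_one hq0 hq1.le hp0 hp1
  -- the difference
  have hj3 : prop4 (Q m) ^ j - q ≤ δ / n := by
    have h1 : prop4 (Q m) ^ j ≤ 1 := pow_le_one₀ hp0.le hp1.le
    have h2 : prop4 (Q m) ^ (j + 1) = prop4 (Q m) ^ j * prop4 (Q m) := pow_succ _ _
    have h3 : 0 ≤ prop4 (Q m) ^ j := by positivity
    nlinarith
  obtain ⟨M, hM⟩ := exists_pow_lt_of_lt_one (show (0 : ℝ) < δ / (2 * n) by positivity)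
    (show ((n : ℝ) - 1) / n < 1 by rw [div_lt_one hnpos]; linarith)
  have h8 : ∀ g : Fin j → Q m, g ^ 8 = 1 := fun g => funext fun i => Q.pow_eight (g i)
  have hest := avg_estimate (M := M) (n := n) h8 hPodd hndef
  rw [prop4_pi] at hest
  have herr : 2 * n * (((n : ℝ) - 1) / n) ^ M < δ := by
    have := mul_lt_mul_of_pos_left hM (show (0 : ℝ) < 2 * n by positivity)
    calc 2 * n * (((n : ℝ) - 1) / n) ^ M < 2 * n * (δ / (2 * n)) := this
      _ = δ := by field_simp
  have hT1 : (n : ℝ) * (2 - prop4 (Q m) ^ j) ≤ t := by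
    have : t = n * (2 - q) := by rw [hq]; field_simp; ring
    rw [this]
    exact mul_le_mul_of_nonneg_left (by linarith) hnpos.le
  have hT2 : t - δ ≤ (n : ℝ) * (2 - prop4 (Q m) ^ j) := by
    have h1 : t = n * (2 - q) := by rw [hq]; field_simp; ring
    have h2 : (n : ℝ) * (prop4 (Q m) ^ j - q) ≤ n * (δ / n) := mul_le_mul_of_nonneg_left hj3 hnpos.le
    have h3 : (n : ℝ) * (δ / n) = δ := by field_simp
    rw [h3] at h2
    rw [h1]
    linarith
  rw [abs_le] at hest
  refine ⟨(Fin j → Q m) × Multiplicative (Fin M → ZMod n), inferInstance, inferInstance, ?_, ?_⟩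
  · linarith [hest.1]
  · linarith [hest.2]

end Pool.Agent.Results.MP_d1f1b8_al.DenseAverageOrders
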